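import Pool.Agent.H44.EQ.Targets

/-!
# Board `eqi_modules` (MP_6ab439_lc), row CAS: the choice of the shared elements

It suffices that the determining positions of one of the blocks at `p₀, p₀'` are not in `S` and that
those of one of the blocks at `p₁, p₁'` are in `S`.
-/

set_option autoImplicit false

namespace Pool.Agent.H18.EQ

open Pool.Agent.H44.EQ
open Classical

section

variable {V P : Type} {γ₀ γ₁ : P → V} {S : Set (Fin 6)} {s₀ s₁ : Set V}

/-- the positions which share their value -/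
def TT (S : Set (Fin 6)) (γ₀ γ₁ : P → V) (s₀ s₁ : Set V) (p : P) : Set (Fin 6) :=
  {l | sel S γ₀ γ₁ l p ∈ sel S s₀ s₁ l}

lemma TT_empty {p : P} (h0 : γ₀ p ∉ s₀) (h1 : γ₁ p ∉ s₁) : TT S γ₀ γ₁ s₀ s₁ p = ∅ := by
  rw [Set.eq_empty_iff_forall_notMem]
  intro l hl
  by_cases h : l ∈ S
  · simp only [TT, sel, Set.mem_ofPred_eq, if_pos h] at hl
    exact h0 hl
  · simp only [TT, sel, Set.mem_ofPred_eq, if_neg h] at hl
    exact h1 hl

lemma TT_univ {p : P} (h0 : γ₀ p ∈ s₀) (h1 : γ₁ p ∈ s₁) : TT S γ₀ γ₁ s₀ s₁ p = Set.univ := by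
  rw [Set.eq_univ_iff_forall]
  intro l
  by_cases h : l ∈ S
  · simp only [TT, sel, Set.mem_ofPred_eq, if_pos h]
    exact h0
  · simp only [TT, sel, Set.mem_ofPred_eq, if_neg h]
    exact h1

lemma TT_S {p : P} (h0 : γ₀ p ∈ s₀) (h1 : γ₁ p ∉ s₁) : TT S γ₀ γ₁ s₀ s₁ p = S := by
  ext l
  by_cases h : l ∈ S
  · simp only [TT, sel, Set.mem_ofPred_eq, h, iff_true]
    exact h0
  · simp only [TT, sel, Set.mem_ofPred_eq, h, iff_false]
    exact h1

lemma good {J : Set (Fin 6) → Set (Fin 6)} {p₀ p₀' p₁ p₁' : P} (hA : γ₁ p₀ ≠ γ₁ p₀')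
    (hE : γ₀ p₁ ≠ γ₀ p₁')
    (h0 : (∀ l ∈ J (TT S γ₀ γ₁ s₀ s₁ p₀), l ∉ S) ∨ ∀ l ∈ J (TT S γ₀ γ₁ s₀ s₁ p₀'), l ∉ S)
    (h1 : (∀ l ∈ J (TT S γ₀ γ₁ s₀ s₁ p₁), l ∈ S) ∨ ∀ l ∈ J (TT S γ₀ γ₁ s₀ s₁ p₁'), l ∈ S) :
    ∀ u ∈ ({(p₀, p₀'), (p₁, p₁')} : Set (P × P)),
      ∀ l ∈ J {l | sel S γ₀ γ₁ l u.1 ∈ sel S s₀ s₁ l},
      ∀ l' ∈ J {l | sel S γ₀ γ₁ l u.2 ∈ sel S s₀ s₁ l},
        ¬ ((l ∈ S ↔ l' ∈ S) ∧ sel S γ₀ γ₁ l u.1 = sel S γ₀ γ₁ l' u.2 ∧
          (l = l' ∨ sel S γ₀ γ₁ l u.1 ∈ sel S s₀ s₁ l)) := by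
  rintro u (rfl | rfl) l hl l' hl' ⟨h2, h3, -⟩
  · have h4 : l ∉ S := by
      rcases h0 with h0 | h0
      · exact h0 l hl
      · exact fun h => h0 l' hl' (h2.1 h)
    have h5 : l' ∉ S := fun h => h4 (h2.2 h)
    simp only [sel, if_neg h4, if_neg h5] at h3
    exact hA h3
  · have h4 : l ∈ S := by
      rcases h1 with h1 | h1
      · exact h1 l hl
      · exact h2.2 (h1 l' hl')
    have h5 : l' ∈ S := h2.1 h4
    simp only [sel, if_pos h4, if_pos h5] at h3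
    exact hE h3

end

theorem pf_CAS : T_CAS := by
  intro V P γ₀ γ₁ p₀ p₀' p₁ p₁' e S i₀ J he heS hi₀ _ hJ1 hJ0 hJu hD hA hC hE
  have hJe : ∀ l ∈ J ∅, l ∉ S := by
    rw [hJ0]
    rintro l rfl
    exact hi₀
  have hJU : ∀ l ∈ J Set.univ, l ∈ S := by
    rw [hJu]
    exact fun l hl => hl
  by_cases hDE : γ₀ p₀ = γ₀ p₁ ∨ γ₀ p₀ = γ₀ p₁'
  · -- `D` is one of `E, E'`; `O` is the other one
    obtain ⟨O, hO1, hO2⟩ : ∃ O : V, γ₀ p₀ ≠ O ∧ (γ₀ p₁ = O ∨ γ₀ p₁' = O) := by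
      rcases hDE with h | h
      · exact ⟨γ₀ p₁', by rw [h]; exact hE, Or.inr rfl⟩
      · exact ⟨γ₀ p₁, by rw [h]; exact hE.symm, Or.inl rfl⟩
    by_cases hCA : γ₁ p₀ = γ₁ p₁ ∨ γ₁ p₀' = γ₁ p₁
    · by_cases hJS : ∃ l ∈ J S, l ∈ S
      · obtain ⟨l0, hl0, hl0S⟩ := hJS
        have hJS' : ∀ l ∈ J S, l ∈ S := by
          intro l hl
          by_contra hlS
          have h1 := hJ1 S l0 hl0 l hl
          unfold kap at h1
          rw [if_pos hl0S, if_neg hlS] at h1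
          have h2 := l.isLt
          rcases he l0 with h3 | h3 <;> omega
        refine ⟨{O}, ∅, good hA hE ?_ ?_⟩
        · left
          rw [TT_empty (by exact hO1) (Set.notMem_empty _)]
          exact hJe
        · rcases hO2 with h | h
          · left
            rw [TT_S (by exact h) (Set.notMem_empty _)]
            exact hJS'
          · right
            rw [TT_S (by exact h) (Set.notMem_empty _)]
            exact hJS'
      · push Not at hJS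
        refine ⟨{γ₀ p₁, γ₀ p₁'}, {γ₁ p₁}, good hA hE ?_ ?_⟩
        · by_cases h : γ₁ p₀ = γ₁ p₁
          · right
            rw [TT_S (by rw [← hD]; exact hDE) (fun h2 => hA (h.trans (Set.mem_singleton_iff.1 h2).symm))]
            exact hJS
          · left
            rw [TT_S (p := p₀) (s₀ := {γ₀ p₁, γ₀ p₁'}) (s₁ := {γ₁ p₁}) (by exact hDE) (by exact h)]
            exact hJS
        · left
          rw [TT_univ (Set.mem_insert _ _) (Set.mem_singleton _)]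
          exact hJU
    · push Not at hCA
      refine ⟨{O}, {γ₁ p₁}, good hA hE ?_ ?_⟩
      · left
        rw [TT_empty (p := p₀) (s₀ := {O}) (s₁ := {γ₁ p₁}) (by exact hO1) (by exact hCA.1)]
        exact hJe
      · rcases hO2 with h | h
        · left
          rw [TT_univ (by exact h) (Set.mem_singleton _)]
          exact hJU
        · right
          rw [TT_univ (by exact h) (Set.mem_singleton_iff.2 hC.symm)]
          exact hJU
  · refine ⟨{γ₀ p₁, γ₀ p₁'}, {γ₁ p₁}, good hA hE ?_ ?_⟩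
    · by_cases h : γ₁ p₀ = γ₁ p₁
      · right
        rw [TT_empty (by rw [← hD]; exact hDE) (fun h2 => hA (h.trans (Set.mem_singleton_iff.1 h2).symm))]
        exact hJe
      · left
        rw [TT_empty (p := p₀) (s₀ := {γ₀ p₁, γ₀ p₁'}) (s₁ := {γ₁ p₁}) (by exact hDE) (by exact h)]
        exact hJe
    · left
      rw [TT_univ (Set.mem_insert _ _) (Set.mem_singleton _)]
      exact hJU

end Pool.Agent.H18.EQ
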